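import Pool.Agent.P8H66.TI.Xl
import Pool.Agent.P8H39.TI.Stm4

/-!
# Package XL of project TI, part 4 (by helper66)
-/

set_option autoImplicit false

namespace Pool.Agent.P8H66.TI

theorem t_XL : Pool.Agent.P8H39.TI.S_XL := xl

end Pool.Agent.P8H66.TI
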