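import Mathlib

/-!
# Package XL of project TI, part 4 (by helper66): the Leibniz rule for finite differences
-/

set_option autoImplicit false

namespace Pool.Agent.P8H66.TI

open Finset fwdDiff

theorem shift (w : ℕ) : ∀ (φ : ℕ → ℝ) (y : ℕ),
    (fwdDiff 1)^[w] (fun u => φ (u + 1)) y = (fwdDiff 1)^[w] φ (y + 1) := by
  induction w with
  | zero => intro φ y; rfl
  | succ w ih =>
    intro φ y
    rw [Function.iterate_succ_apply, Function.iterate_succ_apply]
    exact ih (fwdDiff 1 φ) y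

theorem leib (M : ℕ) : ∀ (φ ψ : ℕ → ℝ) (u : ℕ),
    (fwdDiff 1)^[M] (fun u => φ u * ψ u) u =
      ∑ v ∈ range (M + 1), (M.choose v : ℝ) * ((fwdDiff 1)^[M - v] φ (u + v) * (fwdDiff 1)^[v] ψ u) := by
  induction M with
  | zero => intro φ ψ u; simp
  | succ M ih =>
    intro φ ψ u
    rw [Function.iterate_succ_apply]
    have h1 : fwdDiff 1 (fun u => φ u * ψ u) =
        (fun u => (fun u => φ (u + 1)) u * (fwdDiff 1 ψ) u) + fun u => (fwdDiff 1 φ) u * ψ u := by
      funext y
      simp only [fwdDiff, Pi.add_apply]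
      ring
    rw [h1, fwdDiff_iter_add, Pi.add_apply, ih, ih]
    simp only [shift]
    have h2 : ∀ v ∈ range (M + 1), (M.choose v : ℝ) * ((fwdDiff 1)^[M - v] (fwdDiff 1 φ) (u + v) *
        (fwdDiff 1)^[v] ψ u) = (M.choose v : ℝ) * ((fwdDiff 1)^[M + 1 - v] φ (u + v) *
        (fwdDiff 1)^[v] ψ u) := by
      intro v hv
      rw [← Function.iterate_succ_apply (fwdDiff 1), show (M - v).succ = M + 1 - v from by
        rw [mem_range] at hv; omega]
    rw [sum_congr rfl h2]
    rw [sum_range_succ' (fun v => ((M + 1).choose v : ℝ) * ((fwdDiff 1)^[M + 1 - v] φ (u + v) *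
        (fwdDiff 1)^[v] ψ u)) (M + 1)]
    have h3 : ∑ v ∈ range (M + 1), (M.choose v : ℝ) * ((fwdDiff 1)^[M + 1 - v] φ (u + v) *
        (fwdDiff 1)^[v] ψ u) = ∑ v ∈ range (M + 1), (M.choose (v + 1) : ℝ) *
          ((fwdDiff 1)^[M + 1 - (v + 1)] φ (u + (v + 1)) * (fwdDiff 1)^[v + 1] ψ u) +
          (M.choose 0 : ℝ) * ((fwdDiff 1)^[M + 1 - 0] φ (u + 0) * (fwdDiff 1)^[0] ψ u) := by
      rw [← sum_range_succ' (fun v => (M.choose v : ℝ) * ((fwdDiff 1)^[M + 1 - v] φ (u + v) *
        (fwdDiff 1)^[v] ψ u)) (M + 1), sum_range_succ _ (M + 1)]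
      simp
    rw [h3, ← add_assoc, ← sum_add_distrib]
    congr 1
    · refine sum_congr rfl fun v hv => ?_
      rw [Nat.choose_succ_succ, Nat.cast_add, add_mul, Nat.add_sub_add_right, ← Function.iterate_succ_apply (fwdDiff 1),
        add_assoc]
    · simp

theorem dchoose (q w : ℕ) : ∀ y : ℕ, (fwdDiff 1)^[w] (fun u : ℕ => ((u.choose q : ℕ) : ℝ)) y =
    if w ≤ q then ((y.choose (q - w) : ℕ) : ℝ) else 0 := by
  induction w with
  | zero => intro y; simp
  | succ w ih =>
    intro y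
    rw [Function.iterate_succ_apply']
    simp only [fwdDiff, ih]
    rcases lt_trichotomy w q with h | h | h
    · rw [if_pos h.le, if_pos h.le, if_pos (by omega), show q - w = (q - (w + 1)) + 1 from by omega,
        Nat.choose_succ_succ]
      push_cast
      ring
    · subst h
      simp
    · rw [if_neg (by omega), if_neg (by omega), if_neg (by omega)]
      simp

theorem dinv (m x : ℕ) (hm : 1 ≤ m) (v : ℕ) : ∀ y : ℕ, y + v + m ≤ x →
    (fwdDiff 1)^[v] (fun u : ℕ => 1 / ((x - u).descFactorial m : ℝ)) y =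
      (m.ascFactorial v : ℝ) / ((x - y).descFactorial (m + v) : ℝ) := by
  induction v with
  | zero => intro y hy; simp
  | succ v ih =>
    intro y hy
    rw [Function.iterate_succ_apply']
    simp only [fwdDiff]
    rw [ih y (by omega), ih (y + 1) (by omega)]
    obtain ⟨z, rfl⟩ : ∃ z, x = y + 1 + z := ⟨x - y - 1, by omega⟩
    have e1 : y + 1 + z - (y + 1) = z := by omega
    have e2 : y + 1 + z - y = z + 1 := by omega
    rw [e1, e2]
    have hz : m + v ≤ z := by omega
    have hA : (0 : ℝ) < (z.descFactorial (m + v) : ℝ) := by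
      exact_mod_cast Nat.pos_of_ne_zero (by rw [Ne, Nat.descFactorial_eq_zero_iff_lt]; omega)
    have hB : (0 : ℝ) < ((z + 1).descFactorial (m + v) : ℝ) := by
      exact_mod_cast Nat.pos_of_ne_zero (by rw [Ne, Nat.descFactorial_eq_zero_iff_lt]; omega)
    have hC : ((z + 1).descFactorial (m + (v + 1)) : ℝ) = (z + 1 : ℝ) * (z.descFactorial (m + v) : ℝ) := by
      rw [show m + (v + 1) = (m + v) + 1 from rfl, Nat.succ_descFactorial_succ]
      push_cast
      ring
    have hD : ((z + 1).descFactorial (m + (v + 1)) : ℝ) =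
        ((z : ℝ) + 1 - (m + v)) * ((z + 1).descFactorial (m + v) : ℝ) := by
      rw [show m + (v + 1) = (m + v) + 1 from rfl, Nat.descFactorial_succ]
      push_cast [Nat.cast_sub (show m + v ≤ z + 1 by omega)]
      ring
    have hE : (m.ascFactorial (v + 1) : ℝ) = ((m : ℝ) + v) * (m.ascFactorial v : ℝ) := by
      rw [Nat.ascFactorial_succ]
      push_cast
      ring
    have hF : (0 : ℝ) < (z : ℝ) + 1 - (m + v) := by
      have : ((m + v : ℕ) : ℝ) ≤ (z : ℝ) := by exact_mod_cast hz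
      push_cast at this
      linarith
    have hG : (0 : ℝ) < (z : ℝ) + 1 := by positivity
    rw [hE]
    have h1 : (m.ascFactorial v : ℝ) / (z.descFactorial (m + v) : ℝ) =
        (m.ascFactorial v : ℝ) * ((z : ℝ) + 1) / ((z + 1).descFactorial (m + (v + 1)) : ℝ) := by
      rw [hC]
      field_simp
    have h2 : (m.ascFactorial v : ℝ) / ((z + 1).descFactorial (m + v) : ℝ) =
        (m.ascFactorial v : ℝ) * ((z : ℝ) + 1 - (m + v)) / ((z + 1).descFactorial (m + (v + 1)) : ℝ) := by
      rw [hD]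
      field_simp
    rw [h1, h2, ← sub_div]
    congr 1
    ring

/-- the Leibniz rule -/
theorem xl : ∀ (M q j m x : ℕ), 1 ≤ j → 1 ≤ m → M + m ≤ x →
    ∑ u ∈ range (M + 1), (-1 : ℝ) ^ (M - u) * (M.choose u : ℝ) * ((j - 1 + u).choose q : ℝ) /
        ((x - u).descFactorial m : ℝ) =
      ∑ v ∈ range (M + 1), (M.choose v : ℝ) * (m.ascFactorial v : ℝ) /
        (x.descFactorial (m + v) : ℝ) *
          (if M - v ≤ q then ((j - 1 + v).choose (q - (M - v)) : ℝ) else 0) := by
  intro M q j m x hj hm hx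
  have h1 := leib M (fun u => (((j - 1 + u).choose q : ℕ) : ℝ))
    (fun u : ℕ => 1 / ((x - u).descFactorial m : ℝ)) 0
  rw [fwdDiff_iter_eq_sum_shift] at h1
  have h2 : ∑ u ∈ range (M + 1), (-1 : ℝ) ^ (M - u) * (M.choose u : ℝ) * ((j - 1 + u).choose q : ℝ) /
        ((x - u).descFactorial m : ℝ) = ∑ k ∈ range (M + 1), ((-1 : ℤ) ^ (M - k) * (M.choose k : ℤ)) •
        ((fun u : ℕ => (((j - 1 + u).choose q : ℕ) : ℝ) * (1 / ((x - u).descFactorial m : ℝ))) (0 + k • 1)) := by
    refine sum_congr rfl fun k _ => ?_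
    simp only [smul_eq_mul, mul_one, zero_add, zsmul_eq_mul]
    push_cast
    ring
  rw [h2, h1]
  refine sum_congr rfl fun v hv => ?_
  rw [mem_range] at hv
  rw [dinv m x hm v 0 (by omega)]
  have h3 : ∀ (w y : ℕ), (fwdDiff 1)^[w] (fun u => (((j - 1 + u).choose q : ℕ) : ℝ)) y =
      (fwdDiff 1)^[w] (fun u : ℕ => ((u.choose q : ℕ) : ℝ)) (j - 1 + y) := by
    intro w
    induction w with
    | zero => intro y; rfl
    | succ w ih =>
      intro y
      rw [Function.iterate_succ_apply', Function.iterate_succ_apply']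
      simp only [fwdDiff, ih]
      rfl
  rw [h3, dchoose, zero_add, Nat.sub_zero]
  ring

end Pool.Agent.P8H66.TI
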